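import Pool.Agent.CMG.Stmts

/-!
# Squad CMG, row EVA: every continuous character of `homs D` is an evaluation
-/

set_option autoImplicit false

open Set Topology MeasureTheory
open scoped BigOperators Pointwise

namespace Pool.Agent.CMG.H6

open Pool.Agent.LSG Pool.Agent.CMG

theorem homs_closed (D : Type) [CommGroup D] : IsClosed ((homs D : Subgroup (D → Circle)) :
    Set (D → Circle)) := by
  have e : ((homs D : Subgroup (D → Circle)) : Set (D → Circle)) =
      ⋂ a : D, ⋂ b : D, {u : D → Circle | u (a * b) = u a * u b} := by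
    ext u
    rw [Set.mem_iInter]
    constructor
    · intro h a
      rw [Set.mem_iInter]
      intro b
      exact h a b
    · intro h a b
      have h1 := h a
      rw [Set.mem_iInter] at h1
      exact h1 b
  rw [e]
  exact isClosed_iInter fun a => isClosed_iInter fun b =>
    isClosed_eq (continuous_apply (a * b)) ((continuous_apply a).mul (continuous_apply b))

theorem homs_compact (D : Type) [CommGroup D] : CompactSpace ↥(homs D) :=
  isCompact_iff_compactSpace.1 (homs_closed D).isCompact

attribute [local instance] homs_compact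

theorem coe_cont : Continuous fun z : Circle => (z : ℂ) := by fun_prop

/-- the evaluation at `d` -/
noncomputable def ev (D : Type) [CommGroup D] (d : D) : C(↥(homs D), ℂ) :=
  ⟨fun u => ((u.1 d : Circle) : ℂ),
    coe_cont.comp ((continuous_apply d).comp continuous_subtype_val)⟩

theorem ev_apply (D : Type) [CommGroup D] (d : D) (u : ↥(homs D)) :
    ev D d u = ((u.1 d : Circle) : ℂ) := rfl

theorem ev_mul (D : Type) [CommGroup D] (a b : D) : ev D a * ev D b = ev D (a * b) := by
  ext u
  rw [ContinuousMap.mul_apply, ev_apply, ev_apply, ev_apply, u.2 a b, Circle.coe_mul]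

theorem homs_one {D : Type} [CommGroup D] (u : ↥(homs D)) : u.1 1 = 1 := by
  have h := u.2 1 1
  rw [mul_one] at h
  exact (left_eq_mul.1 h)

theorem homs_inv {D : Type} [CommGroup D] (u : ↥(homs D)) (d : D) : u.1 d⁻¹ = (u.1 d)⁻¹ := by
  have h := u.2 d⁻¹ d
  rw [inv_mul_cancel, homs_one] at h
  exact eq_inv_of_mul_eq_one_left h.symm

theorem ev_one (D : Type) [CommGroup D] : ev D 1 = 1 := by
  ext u
  rw [ev_apply, homs_one, Circle.coe_one, ContinuousMap.one_apply]

theorem ev_star (D : Type) [CommGroup D] (d : D) : star (ev D d) = ev D d⁻¹ := by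
  ext u
  rw [ContinuousMap.star_apply, ev_apply, ev_apply, homs_inv, Circle.coe_inv_eq_conj]
  rfl

theorem eva_span_mul (D : Type) [CommGroup D] (f g : C(↥(homs D), ℂ))
    (hf : f ∈ Submodule.span ℂ (Set.range (ev D))) (hg : g ∈ Submodule.span ℂ (Set.range (ev D))) :
    f * g ∈ Submodule.span ℂ (Set.range (ev D)) := by
  have h := Submodule.mul_mem_mul hf hg
  rw [Submodule.span_mul_span] at h
  refine Submodule.span_mono ?_ h
  rintro _ ⟨_, ⟨a, rfl⟩, _, ⟨b, rfl⟩, rfl⟩
  exact ⟨a * b, (ev_mul D a b).symm⟩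

theorem eva_span_star (D : Type) [CommGroup D] (f : C(↥(homs D), ℂ))
    (hf : f ∈ Submodule.span ℂ (Set.range (ev D))) :
    star f ∈ Submodule.span ℂ (Set.range (ev D)) := by
  refine Submodule.span_induction (p := fun f _ => star f ∈ Submodule.span ℂ (Set.range (ev D)))
    ?_ ?_ ?_ ?_ hf
  · rintro _ ⟨d, rfl⟩
    rw [ev_star]
    exact Submodule.subset_span ⟨_, rfl⟩
  · rw [star_zero]
    exact Submodule.zero_mem _
  · intro x y _ _ hx hy
    rw [star_add]
    exact Submodule.add_mem _ hx hy
  · intro c x _ hx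
    rw [star_smul]
    exact Submodule.smul_mem _ _ hx

theorem eva_dense (D : Type) [CommGroup D] (F : C(↥(homs D), ℂ)) (ε : ℝ) (hε : 0 < ε) :
    ∃ f ∈ Submodule.span ℂ (Set.range (ev D)), dist F f < ε := by
  have hone : (1 : C(↥(homs D), ℂ)) ∈ Submodule.span ℂ (Set.range (ev D)) :=
    Submodule.subset_span ⟨1, ev_one D⟩
  let A : StarSubalgebra ℂ C(↥(homs D), ℂ) :=
    { carrier := (Submodule.span ℂ (Set.range (ev D)) : Set C(↥(homs D), ℂ))
      mul_mem' := fun {f g} hf hg => eva_span_mul D f g hf hg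
      one_mem' := hone
      add_mem' := fun {f g} hf hg => Submodule.add_mem _ hf hg
      zero_mem' := Submodule.zero_mem _
      algebraMap_mem' := fun c => by
        rw [Algebra.algebraMap_eq_smul_one]
        exact Submodule.smul_mem _ _ hone
      star_mem' := fun {f} hf => eva_span_star D f hf }
  have hsep : A.SeparatesPoints := by
    intro u v huv
    have h1 : ∃ d, u.1 d ≠ v.1 d := by
      by_contra hcon
      push Not at hcon
      exact huv (Subtype.ext (funext hcon))
    obtain ⟨d, hd⟩ := h1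
    refine ⟨ev D d, ⟨ev D d, Submodule.subset_span ⟨d, rfl⟩, rfl⟩, ?_⟩
    intro h
    exact hd (Circle.coe_injective h)
  have htop := ContinuousMap.starSubalgebra_topologicalClosure_eq_top_of_separatesPoints A hsep
  have hF : F ∈ (A.topologicalClosure : Set C(↥(homs D), ℂ)) := by
    rw [htop]
    trivial
  rw [StarSubalgebra.topologicalClosure_coe, Metric.mem_closure_iff] at hF
  obtain ⟨f, hf, hd⟩ := hF ε hε
  exact ⟨f, hf, hd⟩

theorem eva (ort : OrtStmt) : EvaStmt := by
  intro D _ ψ hψ hψm
  by_contra hcon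
  push Not at hcon
  letI : MeasurableSpace ↥(homs D) := borel _
  haveI : BorelSpace ↥(homs D) := ⟨rfl⟩
  let μ : Measure ↥(homs D) := Measure.haar
  let Ψ : C(↥(homs D), ℂ) := ⟨fun u => ((ψ u : Circle) : ℂ), coe_cont.comp hψ⟩
  have hΨ : ∀ u, Ψ u = ((ψ u : Circle) : ℂ) := fun u => rfl
  have hint : ∀ g : C(↥(homs D), ℂ), Integrable (fun u => g u) μ := fun g =>
    g.continuous.integrable_of_hasCompactSupport (HasCompactSupport.of_compactSpace _)
  have h1 : ∀ d : D, ∫ u, (Ψ * star (ev D d)) u ∂μ = 0 := by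
    intro d
    obtain ⟨u₀, hu₀⟩ := hcon d
    have h2 := ort ↥(homs D) μ (fun u => ψ u * (u.1 d)⁻¹)
      (hψ.mul ((continuous_apply d).comp continuous_subtype_val).inv)
      (fun x y => by
        have e : (x * y).1 d = x.1 d * y.1 d := rfl
        simp only [hψm, e, mul_inv]
        exact mul_mul_mul_comm _ _ _ _)
      ⟨u₀, fun h => hu₀ (mul_inv_eq_one.1 h)⟩
    rw [← h2]
    apply integral_congr_ae
    filter_upwards with u
    rw [ContinuousMap.mul_apply, ev_star, ev_apply, homs_inv, hΨ, Circle.coe_mul]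
  have h3 : ∀ f ∈ Submodule.span ℂ (Set.range (ev D)), ∫ u, (Ψ * star f) u ∂μ = 0 := by
    intro f hf
    refine Submodule.span_induction (p := fun f _ => ∫ u, (Ψ * star f) u ∂μ = 0)
      ?_ ?_ ?_ ?_ hf
    · rintro _ ⟨d, rfl⟩
      exact h1 d
    · simp
    · intro x y _ _ hx hy
      have e : ∀ u, (Ψ * star (x + y)) u = (Ψ * star x) u + (Ψ * star y) u := by
        intro u
        rw [star_add, mul_add, ContinuousMap.add_apply]
      simp only [e]
      rw [integral_add (hint _) (hint _), hx, hy, add_zero]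
    · intro c x _ hx
      have e : ∀ u, (Ψ * star (c • x)) u = star c * (Ψ * star x) u := by
        intro u
        rw [star_smul, mul_smul_comm, ContinuousMap.smul_apply, smul_eq_mul]
      simp only [e]
      rw [integral_const_mul, hx, mul_zero]
  obtain ⟨f, hf, hd⟩ := eva_dense D Ψ (1 / 2) (by norm_num)
  have h4 : ∀ u, (Ψ * star Ψ) u = (Ψ * star f) u + (Ψ * star (Ψ - f)) u := by
    intro u
    rw [star_sub, mul_sub, ContinuousMap.sub_apply]
    ring
  have h5 : ∀ u, (Ψ * star Ψ) u = 1 := by
    intro u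
    rw [ContinuousMap.mul_apply, ContinuousMap.star_apply, hΨ, Complex.star_def,
      Complex.mul_conj, Circle.normSq_coe, Complex.ofReal_one]
  have h6 : ∫ u, (Ψ * star Ψ) u ∂μ = ∫ u, (Ψ * star (Ψ - f)) u ∂μ := by
    simp only [h4]
    rw [integral_add (hint _) (hint _), h3 f hf, zero_add]
  have h7 : ∫ u, (Ψ * star Ψ) u ∂μ = ((μ.real Set.univ : ℝ) : ℂ) := by
    simp only [h5]
    rw [integral_const, Complex.real_smul, mul_one]
  have h8 : ‖∫ u, (Ψ * star (Ψ - f)) u ∂μ‖ ≤ (1 / 2) * μ.real Set.univ := by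
    apply norm_integral_le_of_norm_le_const
    filter_upwards with u
    rw [ContinuousMap.mul_apply, norm_mul, hΨ, Circle.norm_coe, one_mul,
      ContinuousMap.star_apply, norm_star]
    have h9 := ContinuousMap.norm_coe_le_norm (Ψ - f) u
    rw [← dist_eq_norm] at h9
    exact h9.trans hd.le
  have hpos : 0 < μ.real Set.univ := by
    rw [Measure.real, ENNReal.toReal_pos_iff]
    exact ⟨IsOpen.measure_pos μ isOpen_univ ⟨1, trivial⟩, measure_lt_top μ _⟩
  rw [← h6, h7, Complex.norm_real, Real.norm_eq_abs, abs_of_pos hpos] at h8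
  linarith

end Pool.Agent.CMG.H6
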